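import Pool.Agent.X54.MG.Fac

/-!
# An unstable `𝒜`-finite germ of corank two whose stable perturbation has contractible image

The germ is `f(x, y) = (x², y², xy, x³, xy², x²y, y³, 0, 0)`, with the stable perturbation
`f_s(x, y) = (x², y², xy, x³, xy², x²y, y³, s x, s y)`.
-/

set_option autoImplicit false

namespace Pool.Agent.Results.MP_496a1f_ag.CorankTwo

open Topology Filter Pool.Agent.X54.MG

/-- the closed Euclidean ball of radius `ε` centred at the origin of `ℂ^p` -/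
def closedEuclideanBall (p : ℕ) (ε : ℝ) : Set (Fin p → ℂ) := {y | ∑ i, ‖y i‖ ^ 2 ≤ ε ^ 2}

/-- `S` is a finite set of points with `f(S) ⊆ {y}` and `g x`, `x ∈ S`, are germs at `x` of vector
fields along `f`.  `InTangent f S y g`: the multigerm `g` lies in the extended tangent space
`T𝒜_e f = tf(θ_n) + wf(θ_p)` of the multigerm of `f` at `S`: there are germs of holomorphic vector
fields `ξ x` at the points `x` of `S` and one germ `η` at `y` with `g x = df(ξ x) + η ∘ f` near `x`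
for all `x ∈ S`. -/
def InTangent {n p : ℕ} (f : (Fin n → ℂ) → (Fin p → ℂ)) (S : Finset (Fin n → ℂ)) (y : Fin p → ℂ)
    (g : (Fin n → ℂ) → (Fin n → ℂ) → (Fin p → ℂ)) : Prop :=
  ∃ (ξ : (Fin n → ℂ) → (Fin n → ℂ) → (Fin n → ℂ)) (η : (Fin p → ℂ) → (Fin p → ℂ)),
    (∀ x ∈ S, AnalyticAt ℂ (ξ x) x) ∧ AnalyticAt ℂ η y ∧
    ∀ x ∈ S, ∀ᶠ z in 𝓝 x, g x z = fderiv ℂ f z (ξ x z) + η (f z)

/-- the multigerm of `f` at the finite set `S ⊆ f⁻¹(y)` is stable: its `𝒜_e`-codimension is `0`,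
that is, `T𝒜_e f` contains all vector fields along `f` -/
def Stable {n p : ℕ} (f : (Fin n → ℂ) → (Fin p → ℂ)) (S : Finset (Fin n → ℂ)) (y : Fin p → ℂ) :
    Prop :=
  (∀ x ∈ S, AnalyticAt ℂ f x ∧ f x = y) ∧
  ∀ g : (Fin n → ℂ) → (Fin n → ℂ) → (Fin p → ℂ),
    (∀ x ∈ S, AnalyticAt ℂ (g x) x) → InTangent f S y g

/-- the germ of `f` at `0` has finite `𝒜_e`-codimension: finitely many vector fields `b i` along `f`
span the space of all germs of vector fields along `f` modulo `T𝒜_e f` -/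
def AFinite {n p : ℕ} (f : (Fin n → ℂ) → (Fin p → ℂ)) : Prop :=
  ∃ (ι : Type) (_ : Fintype ι) (b : ι → (Fin n → ℂ) → (Fin p → ℂ)), (∀ i, AnalyticAt ℂ (b i) 0) ∧
    ∀ g : (Fin n → ℂ) → (Fin p → ℂ), AnalyticAt ℂ g 0 →
      ∃ c : ι → ℂ, InTangent f {0} 0 (fun _ z => g z - ∑ i, c i • b i z)

/-- the corank `n - rank df_0` of the germ of `f` at `0` -/
noncomputable def corank {n p : ℕ} (f : (Fin n → ℂ) → (Fin p → ℂ)) : ℕ :=
  n - Module.finrank ℂ (LinearMap.range (fderiv ℂ f 0 : (Fin n → ℂ) →ₗ[ℂ] (Fin p → ℂ)))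

/-- The one-parameter unfolding `(x, s) ↦ (F(x, s), s)` of the germ of `f` at `0` gives a stable
perturbation of `f` with contractible image.  `F` is holomorphic near `(0, 0)` with
`F(x, 0) = f(x)`, and arbitrarily small open neighbourhoods `U` of `0` have the following property
for all small closed balls `B_ε` in the target, and all `s ≠ 0` sufficiently small with respect to
`ε`, with `f_s = F(·, s)`:
* the part `U ∩ f_s⁻¹(B_ε)` of the representative is compact;
* `f_s` has only stable singularities on it: for `y` in `B_ε` the multigerm of `f_s` at each finite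
  subset of `U ∩ f_s⁻¹(y)` is stable;
* the image `f_s(U) ∩ B_ε` is contractible. -/
def ContractibleStablePerturbation {n p : ℕ} (f : (Fin n → ℂ) → (Fin p → ℂ))
    (F : (Fin n → ℂ) × ℂ → (Fin p → ℂ)) : Prop :=
  AnalyticAt ℂ F 0 ∧ (∀ᶠ x in 𝓝 (0 : Fin n → ℂ), F (x, 0) = f x) ∧
  ∀ W ∈ 𝓝 (0 : Fin n → ℂ), ∃ U ⊆ W, IsOpen U ∧ 0 ∈ U ∧
    ∃ ε₀ > (0 : ℝ), ∀ ε : ℝ, 0 < ε → ε ≤ ε₀ → ∃ δ > (0 : ℝ), ∀ s : ℂ, s ≠ 0 → ‖s‖ < δ →
      IsCompact {x ∈ U | F (x, s) ∈ closedEuclideanBall p ε} ∧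
      (∀ y ∈ closedEuclideanBall p ε, ∀ S : Finset (Fin n → ℂ),
        (∀ x ∈ S, x ∈ U ∧ F (x, s) = y) → Stable (fun x => F (x, s)) S y) ∧
      ContractibleSpace ((fun x => F (x, s)) '' U ∩ closedEuclideanBall p ε : Set (Fin p → ℂ))

lemma ff_analytic (x : Fin 2 → ℂ) : AnalyticAt ℂ ff x := by
  have hc : ∀ i : Fin 2, AnalyticAt ℂ (fun z : Fin 2 → ℂ => z i) x := fun i =>
    (ContinuousLinearMap.proj (R := ℂ) (φ := fun _ : Fin 2 => ℂ) i).analyticAt x
  rw [show ff = fun z i => ff z i from rfl, analyticAt_pi_iff]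
  intro i
  fin_cases i
  · exact (hc 0).pow 2
  · exact (hc 1).pow 2
  · exact (hc 0).mul (hc 1)
  · exact (hc 0).pow 3
  · exact (hc 0).mul ((hc 1).pow 2)
  · exact ((hc 0).pow 2).mul (hc 1)
  · exact (hc 1).pow 3
  · exact analyticAt_const
  · exact analyticAt_const

/-- the perturbation -/
noncomputable def FF (q : (Fin 2 → ℂ) × ℂ) : Fin 9 → ℂ :=
  ![q.1 0 ^ 2, q.1 1 ^ 2, q.1 0 * q.1 1, q.1 0 ^ 3, q.1 0 * q.1 1 ^ 2, q.1 0 ^ 2 * q.1 1,
    q.1 1 ^ 3, q.2 * q.1 0, q.2 * q.1 1]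

lemma FF_analytic (q : (Fin 2 → ℂ) × ℂ) : AnalyticAt ℂ FF q := by
  have hc : ∀ i : Fin 2, AnalyticAt ℂ (fun z : (Fin 2 → ℂ) × ℂ => z.1 i) q := fun i =>
    ((ContinuousLinearMap.proj (R := ℂ) (φ := fun _ : Fin 2 => ℂ) i).comp
      (ContinuousLinearMap.fst ℂ (Fin 2 → ℂ) ℂ)).analyticAt q
  have h2 : AnalyticAt ℂ (fun z : (Fin 2 → ℂ) × ℂ => z.2) q :=
    (ContinuousLinearMap.snd ℂ (Fin 2 → ℂ) ℂ).analyticAt q
  rw [show FF = fun z i => FF z i from rfl, analyticAt_pi_iff]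
  intro i
  fin_cases i
  · exact (hc 0).pow 2
  · exact (hc 1).pow 2
  · exact (hc 0).mul (hc 1)
  · exact (hc 0).pow 3
  · exact (hc 0).mul ((hc 1).pow 2)
  · exact ((hc 0).pow 2).mul (hc 1)
  · exact (hc 1).pow 3
  · exact h2.mul (hc 0)
  · exact h2.mul (hc 1)

lemma ff_zero : ff 0 = 0 := by
  funext i
  fin_cases i <;> simp [ff]

lemma ff_hasFDerivAt : HasFDerivAt ff (0 : (Fin 2 → ℂ) →L[ℂ] (Fin 9 → ℂ)) 0 := by
  have key : ∀ a b : (Fin 2 → ℂ) → ℂ, DifferentiableAt ℂ a 0 → DifferentiableAt ℂ b 0 → a 0 = 0 →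
      b 0 = 0 → HasFDerivAt (fun z => a z * b z) (0 : (Fin 2 → ℂ) →L[ℂ] ℂ) 0 := by
    intro a b ha hb h1 h2
    have h3 : HasFDerivAt (fun z => a z * b z) _ 0 := ha.hasFDerivAt.mul hb.hasFDerivAt
    refine h3.congr_fderiv ?_
    rw [h1, h2]
    ext v
    simp
  have hc : ∀ i : Fin 2, DifferentiableAt ℂ (fun z : Fin 2 → ℂ => z i) 0 := fun i =>
    (ContinuousLinearMap.proj (R := ℂ) (φ := fun _ : Fin 2 => ℂ) i).differentiableAt
  rw [hasFDerivAt_pi']
  intro i
  have e0 : (ContinuousLinearMap.proj i : (Fin 9 → ℂ) →L[ℂ] ℂ).comp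
      (0 : (Fin 2 → ℂ) →L[ℂ] (Fin 9 → ℂ)) = 0 := by ext; simp
  rw [e0]
  fin_cases i
  · simpa [ff, pow_two] using key (fun z => z 0) (fun z => z 0) (hc 0) (hc 0) rfl rfl
  · simpa [ff, pow_two] using key (fun z => z 1) (fun z => z 1) (hc 1) (hc 1) rfl rfl
  · simpa [ff] using key (fun z => z 0) (fun z => z 1) (hc 0) (hc 1) rfl rfl
  · simpa [ff, pow_succ] using key (fun z => z 0 * z 0) (fun z => z 0) ((hc 0).mul (hc 0)) (hc 0)
      (by simp) rfl
  · simpa [ff] using key (fun z => z 0) (fun z => z 1 ^ 2) (hc 0) ((hc 1).pow 2) rfl (by simp)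
  · simpa [ff] using key (fun z => z 0 ^ 2) (fun z => z 1) ((hc 0).pow 2) (hc 1) (by simp) rfl
  · simpa [ff, pow_succ] using key (fun z => z 1 * z 1) (fun z => z 1) ((hc 1).mul (hc 1)) (hc 1)
      (by simp) rfl
  · simpa [ff] using hasFDerivAt_const (0 : ℂ) (0 : Fin 2 → ℂ)
  · simpa [ff] using hasFDerivAt_const (0 : ℂ) (0 : Fin 2 → ℂ)

lemma ff_finite : AFinite ff := by
  classical
  refine ⟨Fin 9 × Fin 2, inferInstance, fun a z => Pi.single a.1 (z a.2), ?_, ?_⟩
  · intro a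
    have h1 : AnalyticAt ℂ (fun z : Fin 2 → ℂ => z a.2) 0 :=
      (ContinuousLinearMap.proj (R := ℂ) (φ := fun _ : Fin 2 => ℂ) a.2).analyticAt 0
    exact ((ContinuousLinearMap.single ℂ (fun _ : Fin 9 => ℂ) a.1).analyticAt _).comp h1
  · intro g hg
    have hgi : ∀ j, AnalyticAt ℂ (fun z => g z j) 0 := by
      have : AnalyticAt ℂ (fun z i => g z i) 0 := hg
      rw [analyticAt_pi_iff] at this
      exact this
    choose G c1 c2 hG hGe using fun j => factor (fun z => g z j) (hgi j)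
    refine ⟨fun a => if a.2 = 0 then c1 a.1 else c2 a.1, fun _ _ => 0, fun Y j => G j Y, ?_, ?_, ?_⟩
    · intro x _
      exact analyticAt_const
    · rw [analyticAt_pi_iff]
      exact hG
    · intro x hx
      rw [Finset.mem_singleton] at hx
      subst hx
      have h2 : ∀ᶠ z in 𝓝 (0 : Fin 2 → ℂ), ∀ j, g z j = G j (ff z) + c1 j * z 0 + c2 j * z 1 := by
        rw [eventually_all]
        exact hGe
      filter_upwards [h2] with z hz
      funext j
      simp only [map_zero, zero_add, Pi.sub_apply]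
      rw [hz j, Fintype.sum_prod_type, Finset.sum_apply]
      have e1 : ∀ i : Fin 9, (∑ k : Fin 2, (if k = 0 then c1 i else c2 i) •
          (Pi.single i (z k) : Fin 9 → ℂ)) j = if i = j then c1 i * z 0 + c2 i * z 1 else 0 := by
        intro i
        rw [Fin.sum_univ_two]
        by_cases h : i = j
        · subst h
          simp
        · simp [h, Ne.symm h]
      rw [Finset.sum_congr rfl (fun i _ => e1 i), Finset.sum_ite_eq' Finset.univ j]
      simp only [Finset.mem_univ, if_true]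
      ring

lemma ff_unstable : ¬ Stable ff {0} 0 := by
  classical
  rintro ⟨-, h⟩
  obtain ⟨ξ, η, -, hη, he⟩ := h (fun _ z => Pi.single 7 (z 0)) (by
    intro x _
    have h1 : AnalyticAt ℂ (fun z : Fin 2 → ℂ => z 0) x :=
      (ContinuousLinearMap.proj (R := ℂ) (φ := fun _ : Fin 2 => ℂ) 0).analyticAt x
    exact ((ContinuousLinearMap.single ℂ (fun _ : Fin 9 => ℂ) 7).analyticAt _).comp h1)
  have he := he 0 (Finset.mem_singleton_self 0)
  have h7 : ∀ z v, fderiv ℂ ff z v 7 = 0 := by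
    intro z v
    have h1 := (ff_analytic z).differentiableAt.hasFDerivAt
    rw [hasFDerivAt_pi'] at h1
    have h2 := h1 7
    have h3 : HasFDerivAt (fun x => ff x 7) (0 : (Fin 2 → ℂ) →L[ℂ] ℂ) z := by
      simpa [ff] using hasFDerivAt_const (0 : ℂ) z
    have h4 := h2.unique h3
    have h5 := congrArg (fun φ : (Fin 2 → ℂ) →L[ℂ] ℂ => φ v) h4
    simpa using h5
  have h8 : ∀ᶠ z in 𝓝 (0 : Fin 2 → ℂ), z 0 = η (ff z) 7 := by
    filter_upwards [he] with z hz
    have := congrFun hz 7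
    simpa [h7] using this
  -- restrict to a line
  let l : ℂ →L[ℂ] (Fin 2 → ℂ) := ContinuousLinearMap.single ℂ (fun _ : Fin 2 => ℂ) 0
  have hl : Tendsto l (𝓝 0) (𝓝 0) := by
    have := l.continuous.tendsto 0
    rwa [map_zero] at this
  have h9 : ∀ᶠ t in 𝓝 (0 : ℂ), t = η (ff (l t)) 7 := by
    filter_upwards [hl.eventually h8] with t ht
    simpa [l] using ht
  have hd : HasFDerivAt (fun t : ℂ => η (ff (l t)) 7) (0 : ℂ →L[ℂ] ℂ) 0 := by
    have a1 : HasFDerivAt (fun t : ℂ => ff (l t)) (0 : ℂ →L[ℂ] (Fin 9 → ℂ)) 0 := by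
      have := HasFDerivAt.comp (x := (0 : ℂ)) (g := ff) (f := l)
        (g' := (0 : (Fin 2 → ℂ) →L[ℂ] (Fin 9 → ℂ))) (f' := l) (by
          rw [map_zero]; exact ff_hasFDerivAt) l.hasFDerivAt
      simpa using this
    have a2 : HasFDerivAt η (fderiv ℂ η 0) (ff (l 0)) := by
      rw [map_zero, ff_zero]
      exact hη.differentiableAt.hasFDerivAt
    have a3 := HasFDerivAt.comp (x := (0 : ℂ)) (g := η) (f := fun t => ff (l t)) a2 a1
    rw [hasFDerivAt_pi'] at a3
    have a4 := a3 7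
    simpa using a4
  have hd2 : HasFDerivAt (fun t : ℂ => t) (0 : ℂ →L[ℂ] ℂ) 0 := hd.congr_of_eventuallyEq h9
  have h10 := hd2.unique (hasFDerivAt_id (0 : ℂ))
  have := congrArg (fun φ : ℂ →L[ℂ] ℂ => φ 1) h10
  simp at this

lemma FF_stable (s : ℂ) (hs : s ≠ 0) (y : Fin 9 → ℂ) (S : Finset (Fin 2 → ℂ))
    (hS : ∀ x ∈ S, FF (x, s) = y) : Stable (fun x => FF (x, s)) S y := by
  have hval : ∀ x : Fin 2 → ℂ, (![FF (x, s) 7 / s, FF (x, s) 8 / s] : Fin 2 → ℂ) = x := by
    intro x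
    funext i
    fin_cases i
    · simp [FF, hs]
    · simp [FF, hs]
  refine ⟨fun x hx => ⟨?_, hS x hx⟩, ?_⟩
  · exact (FF_analytic (x, s)).comp₂ analyticAt_id analyticAt_const
  · intro g hg
    rcases S.eq_empty_or_nonempty with h0 | ⟨x₀, hx₀⟩
    · subst h0
      exact ⟨fun _ _ => 0, fun _ => 0, by simp, analyticAt_const, by simp⟩
    · have hall : ∀ x ∈ S, x = x₀ := by
        intro x hx
        rw [← hval x, ← hval x₀, hS x hx, hS x₀ hx₀]
      refine ⟨fun _ _ => 0, fun Y => g x₀ ![Y 7 / s, Y 8 / s], fun _ _ => analyticAt_const, ?_, ?_⟩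
      · have h1 : AnalyticAt ℂ (fun Y : Fin 9 → ℂ => (![Y 7 / s, Y 8 / s] : Fin 2 → ℂ)) y := by
          rw [show (fun Y : Fin 9 → ℂ => (![Y 7 / s, Y 8 / s] : Fin 2 → ℂ)) =
            fun Y i => (![Y 7 / s, Y 8 / s] : Fin 2 → ℂ) i from rfl, analyticAt_pi_iff]
          have hc : ∀ j : Fin 9, AnalyticAt ℂ (fun Y : Fin 9 → ℂ => Y j / s) y := fun j =>
            ((ContinuousLinearMap.proj (R := ℂ) (φ := fun _ : Fin 9 => ℂ) j).analyticAt y).div
              analyticAt_const hs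
          intro i
          fin_cases i
          · exact hc 7
          · exact hc 8
        refine AnalyticAt.fun_comp (f := fun Y : Fin 9 → ℂ => (![Y 7 / s, Y 8 / s] : Fin 2 → ℂ)) ?_ h1
        have : (![y 7 / s, y 8 / s] : Fin 2 → ℂ) = x₀ := by rw [← hS x₀ hx₀]; exact hval x₀
        rw [this]
        exact hg x₀ hx₀
      · intro x hx
        refine Eventually.of_forall fun z => ?_
        simp only [map_zero, zero_add]
        rw [hval z, hall x hx]

/-- There is an unstable `𝒜`-finite germ of corank two whose stable perturbation has contractible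
image. -/
theorem result : ∃ (n p : ℕ) (f : (Fin n → ℂ) → (Fin p → ℂ)) (F : (Fin n → ℂ) × ℂ → (Fin p → ℂ)),
    n < p ∧ AnalyticAt ℂ f 0 ∧ f 0 = 0 ∧ AFinite f ∧ ¬ Stable f {0} 0 ∧ 2 ≤ corank f ∧
    ContractibleStablePerturbation f F := by
  refine ⟨2, 9, ff, FF, by norm_num, ff_analytic 0, ff_zero, ff_finite, ff_unstable, ?_,
    FF_analytic 0, ?_, ?_⟩
  · have h0 : fderiv ℂ ff 0 = 0 := ff_hasFDerivAt.fderiv
    have h1 : LinearMap.range
        ((0 : (Fin 2 → ℂ) →L[ℂ] (Fin 9 → ℂ)) : (Fin 2 → ℂ) →ₗ[ℂ] (Fin 9 → ℂ)) = ⊥ := by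
      rw [ContinuousLinearMap.toLinearMap_zero]
      exact LinearMap.range_zero
    rw [corank, h0, h1, finrank_bot]
  · refine Eventually.of_forall fun x => ?_
    funext i
    fin_cases i <;> simp [FF, ff]
  · intro W hW
    obtain ⟨r, hr, hrW⟩ := Metric.mem_nhds_iff.1 hW
    refine ⟨Metric.ball 0 r, hrW, Metric.isOpen_ball, Metric.mem_ball_self hr, r ^ 2 / 2,
      by positivity, ?_⟩
    intro ε hε0 hε
    refine ⟨1, one_pos, ?_⟩
    intro s hs _
    have hsmall : ∀ x : Fin 2 → ℂ, FF (x, s) ∈ closedEuclideanBall 9 ε → x ∈ Metric.ball 0 r := by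
      intro x hx
      rw [mem_ball_zero_iff, pi_norm_lt_iff hr]
      have hx' : ∑ i, ‖FF (x, s) i‖ ^ 2 ≤ ε ^ 2 := hx
      have hc : ∀ j : Fin 9, ‖FF (x, s) j‖ ≤ ε := by
        intro j
        have h1 := Finset.single_le_sum (f := fun i => ‖FF (x, s) i‖ ^ 2)
          (fun i _ => by positivity) (Finset.mem_univ j)
        exact le_of_sq_le_sq (h1.trans hx') hε0.le
      have hb : ∀ a : ℂ, ‖a ^ 2‖ ≤ ε → ‖a‖ < r := by
        intro a ha
        rw [norm_pow] at ha
        have : ‖a‖ ^ 2 < r ^ 2 := by nlinarith [sq_nonneg r, pow_pos hr 2]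
        exact lt_of_pow_lt_pow_left₀ 2 hr.le this
      intro i
      fin_cases i
      · exact hb _ (by simpa [FF] using hc 0)
      · exact hb _ (by simpa [FF] using hc 1)
    have hset : {x ∈ Metric.ball (0 : Fin 2 → ℂ) r | FF (x, s) ∈ closedEuclideanBall 9 ε} =
        {x | FF (x, s) ∈ closedEuclideanBall 9 ε} := by
      ext x
      exact ⟨fun h => h.2, fun h => ⟨hsmall x h, h⟩⟩
    have hcont : Continuous (fun x : Fin 2 → ℂ => FF (x, s)) := by
      unfold FF
      fun_prop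
    have hclosed : IsClosed {x : Fin 2 → ℂ | FF (x, s) ∈ closedEuclideanBall 9 ε} := by
      have : IsClosed (closedEuclideanBall 9 ε) := by
        unfold closedEuclideanBall
        exact isClosed_le (by fun_prop) continuous_const
      exact this.preimage hcont
    have hcompact : IsCompact {x : Fin 2 → ℂ | FF (x, s) ∈ closedEuclideanBall 9 ε} :=
      Metric.isCompact_of_isClosed_isBounded hclosed
        (Metric.isBounded_ball.subset fun x hx => hsmall x hx)
    refine ⟨by rw [hset]; exact hcompact, ?_, ?_⟩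
    · intro y _ S hS
      exact FF_stable s hs y S fun x hx => (hS x hx).2
    · set X : Set (Fin 2 → ℂ) := {x | FF (x, s) ∈ closedEuclideanBall 9 ε} with hX
      have hstar : StarConvex ℝ 0 X := by
        rw [starConvex_zero_iff]
        intro x hx t ht0 ht1
        have hx' : ∑ i, ‖FF (x, s) i‖ ^ 2 ≤ ε ^ 2 := hx
        refine le_trans ?_ hx'
        have hxi : ∀ i, ‖(t • x) i‖ ≤ ‖x i‖ := by
          intro i
          rw [Pi.smul_apply, norm_smul, Real.norm_of_nonneg ht0]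
          exact mul_le_of_le_one_left (norm_nonneg _) ht1
        refine Finset.sum_le_sum fun i _ => ?_
        refine pow_le_pow_left₀ (norm_nonneg _) ?_ 2
        have h0 := hxi 0
        have h1 := hxi 1
        fin_cases i
        · change ‖(t • x) 0 ^ 2‖ ≤ ‖x 0 ^ 2‖
          rw [norm_pow, norm_pow]; gcongr
        · change ‖(t • x) 1 ^ 2‖ ≤ ‖x 1 ^ 2‖
          rw [norm_pow, norm_pow]; gcongr
        · change ‖(t • x) 0 * (t • x) 1‖ ≤ ‖x 0 * x 1‖
          rw [norm_mul, norm_mul]; gcongr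
        · change ‖(t • x) 0 ^ 3‖ ≤ ‖x 0 ^ 3‖
          rw [norm_pow, norm_pow]; gcongr
        · change ‖(t • x) 0 * (t • x) 1 ^ 2‖ ≤ ‖x 0 * x 1 ^ 2‖
          rw [norm_mul, norm_mul, norm_pow, norm_pow]; gcongr
        · change ‖(t • x) 0 ^ 2 * (t • x) 1‖ ≤ ‖x 0 ^ 2 * x 1‖
          rw [norm_mul, norm_mul, norm_pow, norm_pow]; gcongr
        · change ‖(t • x) 1 ^ 3‖ ≤ ‖x 1 ^ 3‖
          rw [norm_pow, norm_pow]; gcongr
        · change ‖s * (t • x) 0‖ ≤ ‖s * x 0‖
          rw [norm_mul, norm_mul]; gcongr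
        · change ‖s * (t • x) 1‖ ≤ ‖s * x 1‖
          rw [norm_mul, norm_mul]; gcongr
      have hne : X.Nonempty := by
        refine ⟨0, ?_⟩
        change ∑ i, ‖FF (0, s) i‖ ^ 2 ≤ ε ^ 2
        have : FF (0, s) = 0 := by
          funext i
          fin_cases i <;> simp [FF]
        rw [this]
        simp
        positivity
      have hXc : ContractibleSpace X := hstar.contractibleSpace hne
      have hXk : CompactSpace X := isCompact_iff_compactSpace.1 hcompact
      let φ : X → (Fin 9 → ℂ) := fun x => FF (x.1, s)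
      have hφc : Continuous φ := hcont.comp continuous_subtype_val
      have hφi : Function.Injective φ := by
        intro a b hab
        apply Subtype.ext
        have h7 : s * a.1 0 = s * b.1 0 := congrFun hab 7
        have h8 : s * a.1 1 = s * b.1 1 := congrFun hab 8
        funext i
        fin_cases i
        · exact mul_left_cancel₀ hs h7
        · exact mul_left_cancel₀ hs h8
      have hemb := (hφc.isClosedEmbedding hφi).isEmbedding
      have himg : (fun x => FF (x, s)) '' Metric.ball 0 r ∩ closedEuclideanBall 9 ε =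
          Set.range φ := by
        ext y
        constructor
        · rintro ⟨⟨x, -, rfl⟩, hy⟩
          exact ⟨⟨x, hy⟩, rfl⟩
        · rintro ⟨x, rfl⟩
          exact ⟨⟨x.1, hsmall x.1 x.2, rfl⟩, x.2⟩
      rw [himg]
      exact hemb.toHomeomorph.symm.contractibleSpace

end Pool.Agent.Results.MP_496a1f_ag.CorankTwo
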